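import Pool.Agent.helper82.LEQ.Spec

/-!
# Row lq:CA1
-/

set_option autoImplicit false

namespace LEQ

open scoped BigOperators
open QS (Lef EAb)

section aux

variable {G : Type} [Group G] {ι : Type} (L : ι → Subgroup G)

/-- `x` maps `L i` to `L j` -/
def CA1_R (x : G) (i j : ι) : Prop := ∀ y : G, y ∈ L i ↔ x * y * x⁻¹ ∈ L j

theorem CA1_R_one (i : ι) : CA1_R L (1 : G) i i := by
  intro y
  rw [one_mul, inv_one, mul_one]

theorem CA1_R_mul {x y : G} {i j k : ι} (h1 : CA1_R L y i j) (h2 : CA1_R L x j k) :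
    CA1_R L (x * y) i k := by
  intro w
  rw [h1 w, h2 (y * w * y⁻¹)]
  have : x * (y * w * y⁻¹) * x⁻¹ = x * y * w * (x * y)⁻¹ := by group
  rw [this]

theorem CA1_R_inv {x : G} {i j : ι} (h : CA1_R L x i j) : CA1_R L x⁻¹ j i := by
  intro w
  rw [h (x⁻¹ * w * x⁻¹⁻¹)]
  have : x * (x⁻¹ * w * x⁻¹⁻¹) * x⁻¹ = w := by group
  rw [this]

/-- the orbit of `i₀` -/
def CA1_W (E : Subgroup G) (i₀ : ι) : Set ι := {j | ∃ e ∈ E, CA1_R L e i₀ j}

theorem CA1_W_self (E : Subgroup G) (i₀ : ι) : i₀ ∈ CA1_W L E i₀ :=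
  ⟨1, E.one_mem, CA1_R_one L i₀⟩

theorem CA1_W_mem {E : Subgroup G} {i₀ : ι} {e : G} (he : e ∈ E) {i j : ι} (hR : CA1_R L e i j)
    (hi : i ∈ CA1_W L E i₀) : j ∈ CA1_W L E i₀ := by
  obtain ⟨f, hf, hfR⟩ := hi
  exact ⟨e * f, E.mul_mem he hf, CA1_R_mul L hfR hR⟩

theorem CA1_nz {E A : Subgroup G} (h : ∀ e ∈ E, ∀ x ∈ A, e * x * e⁻¹ ∈ A) : Nz E A := by
  intro e he x
  constructor
  · exact h e he x
  · intro hx
    have := h e⁻¹ (E.inv_mem he) _ hx
    have h2 : e⁻¹ * (e * x * e⁻¹) * e⁻¹⁻¹ = x := by group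
    rwa [h2] at this

theorem CA1_card [Finite G] (p : ℕ) (hp : p.Prime) [Finite ι] (hF : Fam L p)
    (hu : ∀ (x : G) (i j j' : ι), CA1_R L x i j → CA1_R L x i j' → j = j')
    (E : Subgroup G) (hE : EAb p E) (i₀ : ι) (hN : ¬ Nz E (L i₀)) :
    p ∣ (CA1_W L E i₀).ncard := by
  classical
  have : Fact p.Prime := ⟨hp⟩
  let act : MulAction E ι :=
    { smul := fun e i => (hF.perm (e : G) i).choose
      one_smul := fun i => hu 1 i _ _ ((hF.perm ((1 : E) : G) i).choose_spec) (CA1_R_one L i)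
      mul_smul := fun a b i =>
        hu ((a : G) * (b : G)) i _ _ ((hF.perm ((a * b : E) : G) i).choose_spec)
          (CA1_R_mul L (hF.perm (b : G) i).choose_spec
            (hF.perm (a : G) (hF.perm (b : G) i).choose).choose_spec) }
  have hsm : ∀ (e : E) (i : ι), CA1_R L (e : G) i (e • i) := fun e i =>
    (hF.perm (e : G) i).choose_spec
  have hPG : IsPGroup p E := by
    intro x
    refine ⟨1, ?_⟩
    apply Subtype.ext
    rw [pow_one]
    exact hE.2 x x.2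
  obtain ⟨n, hn⟩ := hPG.card_orbit i₀
  have hW : CA1_W L E i₀ = MulAction.orbit E i₀ := by
    ext j
    constructor
    · rintro ⟨e, he, hR⟩
      exact ⟨⟨e, he⟩, hu e i₀ _ _ (hsm ⟨e, he⟩ i₀) hR⟩
    · rintro ⟨e, he⟩
      refine ⟨e, e.2, ?_⟩
      have := hsm e i₀
      rw [← he]
      exact this
  rw [hW, ← Nat.card_coe_set_eq, hn]
  rcases Nat.eq_zero_or_pos n with h0 | h0
  · exfalso
    rw [h0, pow_zero, Nat.card_coe_set_eq, Set.ncard_eq_one] at hn
    obtain ⟨a, ha⟩ := hn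
    apply hN
    intro e he
    have h1 : i₀ ∈ MulAction.orbit E i₀ := MulAction.mem_orbit_self i₀
    have h2 : (⟨e, he⟩ : E) • i₀ ∈ MulAction.orbit E i₀ := MulAction.mem_orbit i₀ _
    rw [ha, Set.mem_singleton_iff] at h1 h2
    have h3 := hsm ⟨e, he⟩ i₀
    rw [h2] at h3
    subst h1
    exact h3
  · exact dvd_pow_self p (Nat.pos_iff_ne_zero.mp h0)

end aux

theorem CA1 (h1 : AC_stmt) (h2 : NF_stmt) (h3 : DJ_stmt) (h4 : DE_stmt) (h5 : PD_stmt)
    (h6 : SPL_stmt) : CA1_stmt := by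
  classical
  intro G _ _ p hp ι _ L hF U hU z hz c hc E hE i₀ hN
  obtain ⟨hnorm, hinj, hu⟩ := h2 G p hp ι L hF
  obtain ⟨-, -, hmul, -, -, hconj, -⟩ := h1 G p hp ι L hF
  obtain ⟨hdj, hdj2, -⟩ := h3 G p hp ι L hF
  set W : Set ι := CA1_W L E i₀ with hWdef
  have hcard : p ∣ W.ncard := CA1_card L p hp hF hu E hE i₀ hN
  obtain ⟨hdir, hsup⟩ := hdj W
  have hA : Nz E (NJ L W) := by
    apply CA1_nz
    intro e he
    have hle : NJ L W ≤ (NJ L W).comap (MulAut.conj e).toMonoidHom := by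
      unfold NJ
      refine iSup₂_le fun j hj => ?_
      intro x hx
      rw [Subgroup.mem_comap]
      obtain ⟨j', hj'⟩ := hF.perm e j
      have hj'W : j' ∈ W := CA1_W_mem L he hj' hj
      have hx' : e * x * e⁻¹ ∈ L j' := (hj' x).mp hx
      exact (le_iSup₂_of_le (f := fun j (_ : j ∈ W) => L j) j' hj'W le_rfl) hx'
    intro x hx
    exact hle hx
  have hB : Nz E (BJ L W) := by
    apply CA1_nz
    intro e he x hx
    refine ⟨hnorm.conj_mem x hx.1 e, ?_⟩
    intro j hj w hw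
    obtain ⟨j', hj'⟩ := hF.perm e⁻¹ j
    have hj'W : j' ∈ W := CA1_W_mem L (E.inv_mem he) hj' hj
    have hw' := (hj' w).mp hw
    have hx2 := hx.2 j' hj'W _ hw'
    have e1 : e * x * e⁻¹ * w = e * (x * (e⁻¹ * w * e⁻¹⁻¹)) * e⁻¹ := by group
    have e2 : w * (e * x * e⁻¹) = e * ((e⁻¹ * w * e⁻¹⁻¹) * x) * e⁻¹ := by group
    rw [e1, e2, hx2]
  obtain ⟨hde, hde2⟩ := h4 G (NJ L W) (BJ L W) E hdir hA hB
  rw [hsup] at hde
  have hLA : L i₀ ≤ NJ L W :=
    le_iSup₂_of_le (f := fun j (_ : j ∈ W) => L j) i₀ (CA1_W_self L E i₀) le_rfl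
  have hpA : p ∣ Nat.card (NJ L W) := (hF.dvd i₀).trans (Subgroup.card_dvd_of_le hLA)
  have hpH := h5 G p hp (NJ L W) E hE hA hpA
  have hAu : NJ L W ≤ NJ L Set.univ := by
    unfold NJ
    refine iSup₂_le fun j hj => ?_
    exact le_iSup₂_of_le (f := fun j (_ : j ∈ (Set.univ : Set ι)) => L j) j (Set.mem_univ j) le_rfl
  have hANp : NJ L W ≤ Np L := by rw [← hsup]; exact le_sup_left
  have hBNp : BJ L W ≤ Np L := by rw [← hsup]; exact le_sup_right
  -- the membership in the sets `U` along the orbit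
  have hU1 : ∀ g ∈ Np L, g ∈ Cn E → ∀ e ∈ E, ∀ i j : ι, CA1_R L e i j → pr L i g ∈ U i →
      pr L j g ∈ U j := by
    intro g hg hgC e he i j hR hi
    have hcomm : e * g * e⁻¹ = g := by
      have : e * g = g * e := Subgroup.mem_centralizer_iff.mp hgC e he
      rw [this, mul_inv_cancel_right]
    have h7 := (hconj i j e hR g hg).2
    rw [hcomm] at h7
    rw [h7]
    exact hU.perm e i j hR _ hi
  have hU2 : ∀ g ∈ Np L, g ∈ Cn E → z ^ nu L U g = z ^ ({i | pr L i g ∈ U i} \ W).ncard := by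
    intro g hg hgC
    have hnu : nu L U g = ({i | pr L i g ∈ U i} : Set ι).ncard := by
      rw [← Nat.card_coe_set_eq]
      rfl
    have hsplit := Set.ncard_inter_add_ncard_sdiff_eq_ncard ({i | pr L i g ∈ U i} : Set ι) W
      (Set.toFinite _)
    rw [hnu, ← hsplit, pow_add]
    have hone : z ^ (({i | pr L i g ∈ U i} : Set ι) ∩ W).ncard = 1 := by
      by_cases hex : ∃ i, i ∈ W ∧ pr L i g ∈ U i
      · obtain ⟨i, hiW, hiU⟩ := hex
        have : (({i | pr L i g ∈ U i} : Set ι) ∩ W) = W := by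
          apply Set.inter_eq_right.mpr
          intro j hj
          obtain ⟨e, he, hR⟩ := hiW
          obtain ⟨f, hf, hRf⟩ := hj
          exact hU1 g hg hgC (f * e⁻¹) (E.mul_mem hf (E.inv_mem he)) i j
            (CA1_R_mul L (CA1_R_inv L hR) hRf) hiU
        rw [this]
        obtain ⟨k, hk⟩ := hcard
        rw [hk, pow_mul, hz, one_pow]
      · have : (({i | pr L i g ∈ U i} : Set ι) ∩ W) = ∅ := by
          ext j
          constructor
          · rintro ⟨hj1, hj2⟩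
            exact (hex ⟨j, hj2, hj1⟩).elim
          · intro hj
            exact hj.elim
        rw [this, Set.ncard_empty, pow_zero]
    rw [hone, one_mul]
  have hw : ∀ a ∈ NJ L W ⊓ Cn E, ∀ b ∈ BJ L W ⊓ Cn E,
      wt L U z c (a * b) = wt L U z c b := by
    intro a ha b hb
    have haN : a ∈ Np L := hANp ha.1
    have hbN : b ∈ Np L := hBNp hb.1
    have hcond : a * b * c⁻¹ ∈ NJ L Set.univ ↔ b * c⁻¹ ∈ NJ L Set.univ := by
      rw [mul_assoc]
      exact Subgroup.mul_mem_cancel_left _ (hAu ha.1)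
    have hsets : (({i | pr L i (a * b) ∈ U i} : Set ι) \ W) = ({i | pr L i b ∈ U i} \ W) := by
      ext j
      have hkey : j ∉ W → pr L j (a * b) = pr L j b := by
        intro hj
        rw [hmul j a haN b hbN, hdj2 W a ha.1 j hj, one_mul]
      constructor
      · rintro ⟨hj1, hj2⟩
        refine ⟨?_, hj2⟩
        have hj3 : pr L j (a * b) ∈ U j := hj1
        rw [hkey hj2] at hj3
        exact hj3
      · rintro ⟨hj1, hj2⟩
        refine ⟨?_, hj2⟩
        have hj3 : pr L j b ∈ U j := hj1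
        rw [← hkey hj2] at hj3
        exact hj3
    have hpow : z ^ nu L U (a * b) = z ^ nu L U b := by
      rw [hU2 (a * b) ((Np L).mul_mem haN hbN) ((Cn E).mul_mem ha.2 hb.2), hU2 b hbN hb.2, hsets]
    unfold wt
    by_cases hcc : b * c⁻¹ ∈ NJ L Set.univ
    · rw [if_pos hcc, if_pos (hcond.mpr hcc), hpow]
    · rw [if_neg hcc, if_neg (fun h => hcc (hcond.mp h))]
  have hfin := h6 G p hp (NJ L W ⊓ Cn E) (BJ L W ⊓ Cn E) hde2 hpH (wt L U z c) hw
  unfold TT
  rw [hde]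
  exact hfin

end LEQ
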